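import Mathlib
import Pool.Agent.G9.Stmts

set_option autoImplicit false

namespace Pool.Agent.G9.H4

open Finset Pool.Agent.G9

/-- Orthogonality. -/
theorem orth {F : Type} [Field F] [Fintype F] [DecidableEq F] (ψ : AddChar F ℂ) (hψ : ψ ≠ 1)
    (b : F) : ∑ s, ψ (s * b) = if b = 0 then (Fintype.card F : ℂ) else 0 := by
  have h := AddChar.sum_mulShift (R := F) (R' := ℂ) (ψ := ψ) b (AddChar.IsPrimitive.of_ne_one hψ)
  rw [h]
  split_ifs <;> simp

/-- Parseval. -/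
theorem pars {F : Type} [Field F] [Fintype F] [DecidableEq F] (ψ : AddChar F ℂ) (hψ : ψ ≠ 1)
    (f : F → ℂ) :
    ∑ s, ‖∑ x, ψ (s * x) * f x‖ ^ 2 = Fintype.card F * ∑ x, ‖f x‖ ^ 2 := by
  have key : ((∑ s, ‖∑ x, ψ (s * x) * f x‖ ^ 2 : ℝ) : ℂ) =
      ((Fintype.card F * ∑ x, ‖f x‖ ^ 2 : ℝ) : ℂ) := by
    push_cast
    have h1 : ∀ s : F, ((‖∑ x, ψ (s * x) * f x‖ : ℝ) : ℂ) ^ 2 =
        ∑ x, ∑ y, ψ (s * (x - y)) * (f x * (starRingEnd ℂ) (f y)) := by
      intro s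
      rw [← Complex.mul_conj', map_sum, Finset.sum_mul_sum]
      refine sum_congr rfl fun x _ => sum_congr rfl fun y _ => ?_
      rw [map_mul (starRingEnd ℂ), ← AddChar.map_neg_eq_conj, mul_sub, sub_eq_add_neg,
        AddChar.map_add_eq_mul]
      ring
    calc ∑ s : F, ((‖∑ x, ψ (s * x) * f x‖ : ℝ) : ℂ) ^ 2
        = ∑ s : F, ∑ x, ∑ y, ψ (s * (x - y)) * (f x * (starRingEnd ℂ) (f y)) :=
          sum_congr rfl fun s _ => h1 s
      _ = ∑ x, ∑ y, (∑ s : F, ψ (s * (x - y))) * (f x * (starRingEnd ℂ) (f y)) := by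
          rw [sum_comm]
          refine sum_congr rfl fun x _ => ?_
          rw [sum_comm]
          refine sum_congr rfl fun y _ => ?_
          rw [sum_mul]
      _ = ∑ x, ∑ y, (if x = y then (Fintype.card F : ℂ) * (f x * (starRingEnd ℂ) (f y)) else 0) := by
          refine sum_congr rfl fun x _ => sum_congr rfl fun y _ => ?_
          rw [orth ψ hψ]
          by_cases hxy : x = y
          · simp [hxy]
          · simp [hxy, sub_ne_zero.mpr hxy]
      _ = (Fintype.card F : ℂ) * ∑ x, ((‖f x‖ : ℝ) : ℂ) ^ 2 := by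
          rw [mul_sum]
          refine sum_congr rfl fun x _ => ?_
          rw [Finset.sum_ite_eq]
          simp only [mem_univ, if_true]
          rw [Complex.mul_conj']
  exact_mod_cast key

/-- Cauchy - Schwarz for sums of products of norms. -/
theorem csn {ι : Type} [Fintype ι] (u v : ι → ℂ) :
    ∑ t, ‖u t‖ * ‖v t‖ ≤ Real.sqrt (∑ t, ‖u t‖ ^ 2) * Real.sqrt (∑ t, ‖v t‖ ^ 2) := by
  exact Real.sum_mul_le_sqrt_mul_sqrt univ (fun t => ‖u t‖) (fun t => ‖v t‖)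

/-- A nonnegative function summed over the squares. -/
theorem sqs {F : Type} [Field F] [Fintype F] [DecidableEq F] (P : F → ℝ) (hP : ∀ s, 0 ≤ P s)
    (η : F) (hη : η ≠ 0) : ∑ t, P (η * t ^ 2) ≤ 2 * ∑ s, P s := by
  have h1 : ∑ t, P (η * t ^ 2) = ∑ s, ∑ t with η * t ^ 2 = s, P (η * t ^ 2) :=
    (Finset.sum_fiberwise univ (fun t : F => η * t ^ 2) (fun t => P (η * t ^ 2))).symm
  rw [h1, mul_sum]
  refine sum_le_sum fun s _ => ?_
  have h2 : ∑ t with η * t ^ 2 = s, P (η * t ^ 2) = ∑ t with η * t ^ 2 = s, P s := by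
    refine sum_congr rfl fun t ht => ?_
    rw [(mem_filter.mp ht).2]
  rw [h2, sum_const, nsmul_eq_mul]
  refine mul_le_mul_of_nonneg_right ?_ (hP s)
  have h3 : ({t : F | η * t ^ 2 = s} : Finset F).card ≤ 2 := by
    by_contra hc
    push Not at hc
    obtain ⟨a, b, c, ha, hb, hc', hab, hac, hbc⟩ := Finset.two_lt_card_iff.mp hc
    simp only [mem_filter, mem_univ, true_and] at ha hb hc'
    have e1 : a ^ 2 = b ^ 2 := mul_left_cancel₀ hη (ha.trans hb.symm)
    have e2 : a ^ 2 = c ^ 2 := mul_left_cancel₀ hη (ha.trans hc'.symm)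
    rcases sq_eq_sq_iff_eq_or_eq_neg.mp e1 with h | h
    · exact hab h
    · rcases sq_eq_sq_iff_eq_or_eq_neg.mp e2 with h' | h'
      · exact hac h'
      · exact hbc (neg_injective (h.symm.trans h'))
  exact_mod_cast h3

theorem cnv (hG : GauStmt) : CnvStmt := by
  intro F _ _ _ _ ψ hψ hq κ f g
  obtain ⟨G, hGn, hG⟩ := hG F ψ hψ
  have hq0 : (0 : ℝ) < Fintype.card F := by exact_mod_cast Fintype.card_pos
  -- choice of η and l
  have hm1 : ¬ IsSquare (-1 : F) := by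
    rw [FiniteField.isSquare_neg_one_iff]
    simp [hq]
  obtain ⟨η, l, hη2, hη0, hκ⟩ : ∃ η l : F, η * η = 1 ∧ η ≠ 0 ∧ κ = -(η * l ^ 2) := by
    by_cases hs : IsSquare (-κ)
    · obtain ⟨l, hl⟩ := hs
      exact ⟨1, l, by ring, one_ne_zero, by rw [one_mul, pow_two, ← hl]; ring⟩
    · have hk0 : κ ≠ 0 := by
        intro h
        exact hs (by rw [h, neg_zero]; exact ⟨0, by ring⟩)
      have h1 : quadraticChar F (-1) = -1 := quadraticChar_neg_one_iff_not_isSquare.mpr hm1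
      have h2 : quadraticChar F (-κ) = -1 := quadraticChar_neg_one_iff_not_isSquare.mpr hs
      have h3 : quadraticChar F κ = 1 := by
        have : κ = (-1) * (-κ) := by ring
        rw [this, map_mul, h1, h2]
        norm_num
      obtain ⟨l, hl⟩ := (quadraticChar_one_iff_isSquare hk0).mp h3
      exact ⟨-1, l, by ring, by simp, by rw [hl]; ring⟩
  set e : ℂ := ((quadraticChar F η : ℤ) : ℂ) * G with he
  have hχη : ‖((quadraticChar F η : ℤ) : ℂ)‖ = 1 := by
    rcases quadraticChar_dichotomy hη0 with h | h <;> rw [h] <;> simp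
  have hGn' : ‖G‖ = Real.sqrt (Fintype.card F) := by
    rw [← hGn, Real.sqrt_sq (norm_nonneg _)]
  have hen : ‖e‖ = Real.sqrt (Fintype.card F) := by
    rw [he, norm_mul, hχη, one_mul, hGn']
  -- kernel identity
  have hker : ∀ w : F, e * (((quadraticChar F w : ℤ) : ℂ) * ψ (κ / w)) =
      ∑ t, ψ (η * w * t ^ 2 + l * t) - (if w = 0 then (∑ t, ψ (l * t)) else 0) := by
    intro w
    by_cases hw : w = 0
    · subst hw
      simp
    · rw [if_neg hw, sub_zero, hG (η * w) l (mul_ne_zero hη0 hw), he, map_mul]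
      have : -(l ^ 2 / (η * w)) = κ / w := by
        rw [hκ]
        field_simp
        rw [pow_two η, hη2]
        ring
      rw [this]
      push_cast
      ring
  -- the double sum
  set D : ℂ := ∑ x, ∑ y, ((quadraticChar F (x - y) : ℤ) : ℂ) * ψ (κ / (x - y)) * (f x * g y)
    with hD
  set F1 : F → ℂ := fun s => ∑ x, ψ (s * x) * f x with hF1
  set G1 : F → ℂ := fun s => ∑ y, ψ (s * y) * g y with hG1
  set S0 : ℂ := ∑ t, ψ (l * t) with hS0
  have hid : e * D = ∑ t, ψ (l * t) * (F1 (η * t ^ 2) * G1 (-η * t ^ 2)) -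
      S0 * ∑ x, f x * g x := by
    have h1 : e * D = ∑ x, ∑ y, (∑ t, ψ (η * (x - y) * t ^ 2 + l * t) -
        (if x - y = 0 then S0 else 0)) * (f x * g y) := by
      rw [hD, mul_sum]
      refine sum_congr rfl fun x _ => ?_
      rw [mul_sum]
      refine sum_congr rfl fun y _ => ?_
      rw [← hker (x - y)]
      ring
    rw [h1]
    have h2 : ∀ x y : F, (∑ t, ψ (η * (x - y) * t ^ 2 + l * t) -
        (if x - y = 0 then S0 else 0)) * (f x * g y) =
        (∑ t, ψ (η * (x - y) * t ^ 2 + l * t) * (f x * g y)) -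
          (if x = y then S0 * (f x * g y) else 0) := by
      intro x y
      rw [sub_mul, sum_mul]
      by_cases hxy : x = y
      · simp [hxy]
      · simp [hxy, sub_ne_zero.mpr hxy]
    simp_rw [h2, sum_sub_distrib, Finset.sum_ite_eq, mem_univ, if_true, ← mul_sum]
    congr 1
    have h3 : ∑ x : F, ∑ y : F, ∑ t : F, ψ (η * (x - y) * t ^ 2 + l * t) * (f x * g y) =
        ∑ t : F, ∑ x : F, ∑ y : F, ψ (η * (x - y) * t ^ 2 + l * t) * (f x * g y) := by
      calc ∑ x : F, ∑ y : F, ∑ t : F, ψ (η * (x - y) * t ^ 2 + l * t) * (f x * g y)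
          = ∑ x : F, ∑ t : F, ∑ y : F, ψ (η * (x - y) * t ^ 2 + l * t) * (f x * g y) :=
            sum_congr rfl fun x _ => sum_comm
        _ = _ := sum_comm
    rw [h3]
    refine sum_congr rfl fun t _ => ?_
    rw [hF1, hG1]
    simp only
    rw [Finset.sum_mul_sum, mul_sum]
    refine sum_congr rfl fun x _ => ?_
    rw [mul_sum]
    refine sum_congr rfl fun y _ => ?_
    have : η * (x - y) * t ^ 2 + l * t = l * t + (η * t ^ 2 * x + -η * t ^ 2 * y) := by ring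
    rw [this, AddChar.map_add_eq_mul, AddChar.map_add_eq_mul]
    ring
  -- bounds
  set A : ℝ := Real.sqrt (∑ x, ‖f x‖ ^ 2) with hA
  set B : ℝ := Real.sqrt (∑ y, ‖g y‖ ^ 2) with hB
  have hA0 : 0 ≤ A := Real.sqrt_nonneg _
  have hB0 : 0 ≤ B := Real.sqrt_nonneg _
  have hbf : Real.sqrt (∑ t, ‖F1 (η * t ^ 2)‖ ^ 2) ≤ Real.sqrt (2 * Fintype.card F) * A := by
    rw [hA, ← Real.sqrt_mul (by positivity)]
    refine Real.sqrt_le_sqrt ?_
    have := sqs (fun s => ‖F1 s‖ ^ 2) (fun s => by positivity) η hη0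
    have h2 := pars ψ hψ f
    calc ∑ t, ‖F1 (η * t ^ 2)‖ ^ 2 ≤ 2 * ∑ s, ‖F1 s‖ ^ 2 := this
      _ = 2 * (Fintype.card F * ∑ x, ‖f x‖ ^ 2) := by rw [← h2]
      _ = _ := by ring
  have hbg : Real.sqrt (∑ t, ‖G1 (-η * t ^ 2)‖ ^ 2) ≤ Real.sqrt (2 * Fintype.card F) * B := by
    rw [hB, ← Real.sqrt_mul (by positivity)]
    refine Real.sqrt_le_sqrt ?_
    have := sqs (fun s => ‖G1 s‖ ^ 2) (fun s => by positivity) (-η) (neg_ne_zero.mpr hη0)
    have h2 := pars ψ hψ g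
    calc ∑ t, ‖G1 (-η * t ^ 2)‖ ^ 2 ≤ 2 * ∑ s, ‖G1 s‖ ^ 2 := this
      _ = 2 * (Fintype.card F * ∑ x, ‖g x‖ ^ 2) := by rw [← h2]
      _ = _ := by ring
  have hT : ‖∑ t, ψ (l * t) * (F1 (η * t ^ 2) * G1 (-η * t ^ 2))‖ ≤
      2 * Fintype.card F * (A * B) := by
    calc ‖∑ t, ψ (l * t) * (F1 (η * t ^ 2) * G1 (-η * t ^ 2))‖
        ≤ ∑ t, ‖ψ (l * t) * (F1 (η * t ^ 2) * G1 (-η * t ^ 2))‖ := norm_sum_le _ _
      _ = ∑ t, ‖F1 (η * t ^ 2)‖ * ‖G1 (-η * t ^ 2)‖ := by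
          refine sum_congr rfl fun t _ => ?_
          rw [norm_mul, AddChar.norm_apply, one_mul, norm_mul]
      _ ≤ Real.sqrt (∑ t, ‖F1 (η * t ^ 2)‖ ^ 2) * Real.sqrt (∑ t, ‖G1 (-η * t ^ 2)‖ ^ 2) :=
          csn (fun t => F1 (η * t ^ 2)) (fun t => G1 (-η * t ^ 2))
      _ ≤ (Real.sqrt (2 * Fintype.card F) * A) * (Real.sqrt (2 * Fintype.card F) * B) :=
          mul_le_mul hbf hbg (Real.sqrt_nonneg _) (by positivity)
      _ = (Real.sqrt (2 * Fintype.card F) * Real.sqrt (2 * Fintype.card F)) * (A * B) := by ring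
      _ = 2 * Fintype.card F * (A * B) := by
          rw [Real.mul_self_sqrt (by positivity)]
  have hS0n : ‖S0‖ ≤ Fintype.card F := by
    calc ‖S0‖ ≤ ∑ t, ‖ψ (l * t)‖ := norm_sum_le _ _
      _ = Fintype.card F := by simp [AddChar.norm_apply]
  have hfg : ‖∑ x, f x * g x‖ ≤ A * B := by
    calc ‖∑ x, f x * g x‖ ≤ ∑ x, ‖f x * g x‖ := norm_sum_le _ _
      _ = ∑ x, ‖f x‖ * ‖g x‖ := by simp
      _ ≤ A * B := csn f g
  have hfin : Real.sqrt (Fintype.card F) * ‖D‖ ≤ 3 * Fintype.card F * (A * B) := by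
    rw [← hen, ← norm_mul, hid]
    calc _ ≤ ‖∑ t, ψ (l * t) * (F1 (η * t ^ 2) * G1 (-η * t ^ 2))‖ +
          ‖S0 * ∑ x, f x * g x‖ := norm_sub_le _ _
      _ ≤ 2 * Fintype.card F * (A * B) + Fintype.card F * (A * B) := by
          refine add_le_add hT ?_
          rw [norm_mul]
          exact mul_le_mul hS0n hfg (norm_nonneg _) hq0.le
      _ = _ := by ring
  have hsq : 0 < Real.sqrt (Fintype.card F) := Real.sqrt_pos.mpr hq0
  have hss : Real.sqrt (Fintype.card F) * Real.sqrt (Fintype.card F) = Fintype.card F :=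
    Real.mul_self_sqrt hq0.le
  refine le_of_mul_le_mul_left ?_ hsq
  calc Real.sqrt (Fintype.card F) * ‖D‖ ≤ 3 * Fintype.card F * (A * B) := hfin
    _ = 3 * (Real.sqrt (Fintype.card F) * Real.sqrt (Fintype.card F)) * (A * B) := by rw [hss]
    _ = _ := by ring

end Pool.Agent.G9.H4
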